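import Mathlib

/-!
# Zero-dimensional versus Hausdorff closedness of discrete semigroups

A semigroup `X` is `T₂S`-closed (`T_zS`-closed) if it is closed in each Hausdorff (zero-dimensional
Hausdorff) topological semigroup which contains it as a discrete subsemigroup.

Let `X` be a discrete subsemigroup of a Hausdorff topological semigroup `Y` and `y` a point of the
closure of `X` outside of `X`. A closing off argument gives a countable subsemigroup `Z` of `Y`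
which contains `y` and a second countable Hausdorff semigroup topology on `Z` for which `X ∩ Z` is
discrete and has `y` in its closure. Then some sequence of `X ∩ Z` converges to `y`, and `Z` is the
union of an increasing sequence of countable compact sets `L k` with `L k * L k ⊆ L (k + 1)`, the
first of which consists of `y` and the terms of the sequence. The final topology for the sets `L k`
is a zero-dimensional Hausdorff semigroup topology on `Z` for which `X ∩ Z` is discrete and not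
closed.
-/

set_option autoImplicit false

open Set Topology Filter

universe u v w

namespace Pool.Agent.Results.MP_0181e9_al.CountableSubsemigroups

/-- separation of a compact subset of a countable compact set from a closed set -/
theorem lemmaZ {Y : Type u} [TopologicalSpace Y] [T2Space Y] [SecondCountableTopology Y]
    [Countable Y] {K A G : Set Y} (hK : IsCompact K) (hA : IsCompact A) (hAK : A ⊆ K)
    (hG : IsOpen G) (hAG : A ⊆ G) :
    ∃ D : Set Y, A ⊆ D ∧ D ⊆ G ∧ D ⊆ K ∧ IsCompact D ∧ IsCompact (K \ D) := by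
  have : CompactSpace K := isCompact_iff_compactSpace.1 hK
  have : TotallyDisconnectedSpace K := by
    let _ := TopologicalSpace.metrizableSpaceMetric K
    constructor
    exact (Set.to_countable _).isTotallyDisconnected
  have hb := isTopologicalBasis_isClopen (X := K)
  -- the set `A` in the subtype
  have hA' : IsCompact ((Subtype.val : K → Y) ⁻¹' A) := by
    rw [Subtype.isCompact_iff, Subtype.image_preimage_coe, inter_eq_right.2 hAK]
    exact hA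
  have hcov : ∀ x ∈ ((Subtype.val : K → Y) ⁻¹' A), ∃ V : Set K, IsClopen V ∧ x ∈ V ∧
      V ⊆ (Subtype.val : K → Y) ⁻¹' G := by
    intro x hx
    obtain ⟨V, hV, hxV, hVG⟩ := hb.exists_subset_of_mem_open
      (show x ∈ (Subtype.val : K → Y) ⁻¹' G from hAG hx) (hG.preimage continuous_subtype_val)
    exact ⟨V, hV, hxV, hVG⟩
  choose! V hV1 hV2 hV3 using hcov
  obtain ⟨t, ht2⟩ := hA'.elim_nhds_subcover' (fun x hx => V x)
    (fun x hx => (hV1 x hx).isOpen.mem_nhds (hV2 x hx))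
  have hD : IsClopen (⋃ x ∈ t, V (x : K)) := by
    apply t.finite_toSet.isClopen_biUnion
    intro x hx
    exact hV1 x x.2
  refine ⟨Subtype.val '' (⋃ x ∈ t, V (x : K)), ?_, ?_, ?_, ?_, ?_⟩
  · intro a ha
    exact ⟨⟨a, hAK ha⟩, ht2 (show (⟨a, hAK ha⟩ : K) ∈ (Subtype.val : K → Y) ⁻¹' A from ha), rfl⟩
  · rintro _ ⟨a, ha, rfl⟩
    rw [mem_iUnion₂] at ha
    obtain ⟨x, hx, hax⟩ := ha
    exact hV3 x x.2 hax
  · rintro _ ⟨a, ha, rfl⟩
    exact a.2
  · exact hD.isClosed.isCompact.image continuous_subtype_val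
  · have : K \ (Subtype.val '' (⋃ x ∈ t, V (x : K))) = Subtype.val '' ((⋃ x ∈ t, V (x : K))ᶜ) := by
      ext a
      constructor
      · rintro ⟨ha, hna⟩
        exact ⟨⟨a, ha⟩, fun h => hna ⟨_, h, rfl⟩, rfl⟩
      · rintro ⟨b, hb, rfl⟩
        refine ⟨b.2, ?_⟩
        rintro ⟨c, hc, hcb⟩
        rw [Subtype.ext hcb] at hc
        exact hb hc
    rw [this]
    exact hD.compl.isClosed.isCompact.image continuous_subtype_val

section core

variable {Y : Type u} [TopologicalSpace Y]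

/-- `A` is relatively clopen in the compact set `K` -/
def RC (K A : Set Y) : Prop := A ⊆ K ∧ IsCompact A ∧ IsCompact (K \ A)

/-- the final topology for the subsets `L k` -/
@[instance_reducible]
def kTop (L : ℕ → Set Y) : TopologicalSpace Y where
  IsOpen U := ∀ k, ∃ V, IsOpen V ∧ V ∩ L k = U ∩ L k
  isOpen_univ := fun k => ⟨univ, isOpen_univ, rfl⟩
  isOpen_inter := by
    intro s t hs ht k
    obtain ⟨V, hV, h1⟩ := hs k
    obtain ⟨W, hW, h2⟩ := ht k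
    refine ⟨V ∩ W, hV.inter hW, ?_⟩
    ext x
    have e1 : x ∈ V ∩ L k ↔ x ∈ s ∩ L k := by rw [h1]
    have e2 : x ∈ W ∩ L k ↔ x ∈ t ∩ L k := by rw [h2]
    simp only [mem_inter_iff] at *
    tauto
  isOpen_sUnion := by
    intro S hS k
    choose! V hV h1 using fun s hs => hS s hs k
    refine ⟨⋃ s ∈ S, V s, isOpen_biUnion fun s hs => hV s hs, ?_⟩
    ext x
    simp only [mem_inter_iff, mem_iUnion, mem_sUnion, exists_prop]
    constructor
    · rintro ⟨⟨s, hs, hx⟩, hxL⟩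
      have : x ∈ V s ∩ L k := ⟨hx, hxL⟩
      rw [h1 s hs] at this
      exact ⟨⟨s, hs, this.1⟩, hxL⟩
    · rintro ⟨⟨s, hs, hx⟩, hxL⟩
      have : x ∈ s ∩ L k := ⟨hx, hxL⟩
      rw [← h1 s hs] at this
      exact ⟨⟨s, hs, this.1⟩, hxL⟩

theorem kTop_open {L : ℕ → Set Y} {U : Set Y} :
    IsOpen[kTop L] U ↔ ∀ k, ∃ V, IsOpen V ∧ V ∩ L k = U ∩ L k := Iff.rfl

theorem kTop_of_open {L : ℕ → Set Y} {U : Set Y} (hU : IsOpen U) : IsOpen[kTop L] U :=
  fun _ => ⟨U, hU, rfl⟩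

variable [T2Space Y]

theorem open_of_RC {L : ℕ → Set Y} (hmono : Monotone L) {U : Set Y} {k0 : ℕ}
    (h : ∀ k, k0 ≤ k → IsCompact (L k \ U)) : IsOpen[kTop L] U := by
  intro k
  refine ⟨(L (max k k0) \ U)ᶜ, (h _ (le_max_right _ _)).isClosed.isOpen_compl, ?_⟩
  ext x
  simp only [mem_inter_iff, mem_compl_iff, Set.mem_sdiff, not_and, not_not]
  constructor
  · rintro ⟨h1, h2⟩
    exact ⟨h1 (hmono (le_max_left _ _) h2), h2⟩
  · rintro ⟨h1, h2⟩
    exact ⟨fun _ => h1, h2⟩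

/-- building a pair of clopen sets level by level -/
theorem build {L : ℕ → Set Y} (hmono : Monotone L)
    (Φ : ℕ → Set Y → Set Y → Prop) (k0 : ℕ) (A0 B0 : Set Y) (h0 : Φ k0 A0 B0)
    (hΦ : ∀ k A B, Φ k A B → RC (L k) A ∧ RC (L k) B)
    (hstep : ∀ k A B, Φ k A B → ∃ A' B', Φ (k + 1) A' B' ∧ A' ∩ L k = A ∧ B' ∩ L k = B) :
    ∃ U V : Set Y, @IsClopen Y (kTop L) U ∧ @IsClopen Y (kTop L) V ∧ U ∩ L k0 = A0 ∧ V ∩ L k0 = B0 ∧
      ∀ k, k0 ≤ k → Φ k (U ∩ L k) (V ∩ L k) := by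
  classical
  choose! fA fB hf1 hf2 hf3 using hstep
  -- the sequence of pairs
  let S : ℕ → Set Y × Set Y := fun j => Nat.rec (A0, B0)
    (fun j p => (fA (k0 + j) p.1 p.2, fB (k0 + j) p.1 p.2)) j
  have hS0 : S 0 = (A0, B0) := rfl
  have hSs : ∀ j, S (j + 1) = (fA (k0 + j) (S j).1 (S j).2, fB (k0 + j) (S j).1 (S j).2) :=
    fun j => rfl
  have hΦS : ∀ j, Φ (k0 + j) (S j).1 (S j).2 := by
    intro j
    induction j with
    | zero => exact h0
    | succ j ih =>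
      have := hf1 _ _ _ ih
      rw [hSs]
      exact this
  have hA1 : ∀ j, (S (j + 1)).1 ∩ L (k0 + j) = (S j).1 := by
    intro j
    rw [hSs]
    exact hf2 _ _ _ (hΦS j)
  have hB1 : ∀ j, (S (j + 1)).2 ∩ L (k0 + j) = (S j).2 := by
    intro j
    rw [hSs]
    exact hf3 _ _ _ (hΦS j)
  have hA2 : ∀ j i, (S (j + i)).1 ∩ L (k0 + j) = (S j).1 := by
    intro j i
    induction i with
    | zero =>
      rw [Nat.add_zero]
      exact inter_eq_left.2 (hΦ _ _ _ (hΦS j)).1.1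
    | succ i ih =>
      rw [← ih, ← Nat.add_assoc, ← hA1 (j + i), inter_assoc]
      congr 1
      exact (inter_eq_right.2 (hmono (by omega))).symm
  have hB2 : ∀ j i, (S (j + i)).2 ∩ L (k0 + j) = (S j).2 := by
    intro j i
    induction i with
    | zero =>
      rw [Nat.add_zero]
      exact inter_eq_left.2 (hΦ _ _ _ (hΦS j)).2.1
    | succ i ih =>
      rw [← ih, ← Nat.add_assoc, ← hB1 (j + i), inter_assoc]
      congr 1
      exact (inter_eq_right.2 (hmono (by omega))).symm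
  have hU : ∀ j, (⋃ i, (S i).1) ∩ L (k0 + j) = (S j).1 := by
    intro j
    ext x
    simp only [mem_inter_iff, mem_iUnion]
    constructor
    · rintro ⟨⟨i, hx⟩, hxL⟩
      rcases le_total i j with hij | hij
      · obtain ⟨m, rfl⟩ := Nat.exists_eq_add_of_le hij
        have := hA2 i m
        rw [← this] at hx
        exact hx.1
      · obtain ⟨m, rfl⟩ := Nat.exists_eq_add_of_le hij
        rw [← hA2 j m]
        exact ⟨hx, hxL⟩
    · intro hx
      exact ⟨⟨j, hx⟩, (hΦ _ _ _ (hΦS j)).1.1 hx⟩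
  have hV : ∀ j, (⋃ i, (S i).2) ∩ L (k0 + j) = (S j).2 := by
    intro j
    ext x
    simp only [mem_inter_iff, mem_iUnion]
    constructor
    · rintro ⟨⟨i, hx⟩, hxL⟩
      rcases le_total i j with hij | hij
      · obtain ⟨m, rfl⟩ := Nat.exists_eq_add_of_le hij
        have := hB2 i m
        rw [← this] at hx
        exact hx.1
      · obtain ⟨m, rfl⟩ := Nat.exists_eq_add_of_le hij
        rw [← hB2 j m]
        exact ⟨hx, hxL⟩
    · intro hx
      exact ⟨⟨j, hx⟩, (hΦ _ _ _ (hΦS j)).2.1 hx⟩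
  have key : ∀ (W : Set Y), (∀ j, RC (L (k0 + j)) (W ∩ L (k0 + j))) → @IsClopen Y (kTop L) W := by
    intro W hW
    have hW1 : ∀ k, k0 ≤ k → IsCompact (L k \ W) := by
      intro k hk
      obtain ⟨j, rfl⟩ := Nat.exists_eq_add_of_le hk
      have := (hW j).2.2
      rwa [show L (k0 + j) \ (W ∩ L (k0 + j)) = L (k0 + j) \ W by ext x; simp] at this
    have hW2 : ∀ k, k0 ≤ k → IsCompact (L k \ Wᶜ) := by
      intro k hk
      obtain ⟨j, rfl⟩ := Nat.exists_eq_add_of_le hk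
      have := (hW j).2.1
      rwa [show L (k0 + j) \ Wᶜ = W ∩ L (k0 + j) by ext x; simp [and_comm]]
    refine ⟨?_, open_of_RC hmono hW1⟩
    rw [← @isOpen_compl_iff _ _ (kTop L)]
    exact open_of_RC hmono hW2
  refine ⟨⋃ i, (S i).1, ⋃ i, (S i).2, key _ fun j => ?_, key _ fun j => ?_, ?_, ?_, ?_⟩
  · rw [hU]; exact (hΦ _ _ _ (hΦS j)).1
  · rw [hV]; exact (hΦ _ _ _ (hΦS j)).2
  · exact hU 0
  · exact hV 0
  · intro k hk
    obtain ⟨j, rfl⟩ := Nat.exists_eq_add_of_le hk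
    rw [hU, hV]
    exact hΦS j

theorem ext1 [SecondCountableTopology Y] [Countable Y] {L : ℕ → Set Y} (hmono : Monotone L)
    (hL : ∀ k, IsCompact (L k)) {k : ℕ} {A O : Set Y} (hA : RC (L k) A) (hO : IsOpen O)
    (hAO : A ⊆ O) : ∃ A', RC (L (k + 1)) A' ∧ A' ⊆ O ∧ A' ∩ L k = A := by
  obtain ⟨D, h1, h2, h3, h4, h5⟩ := lemmaZ (K := L (k + 1)) (A := A) (G := O \ (L k \ A))
    (hL _) hA.2.1 (hA.1.trans (hmono (Nat.le_succ k))) (hO.sdiff hA.2.2.isClosed)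
    (fun a ha => ⟨hAO ha, fun h => h.2 ha⟩)
  refine ⟨D, ⟨h3, h4, h5⟩, fun a ha => (h2 ha).1, ?_⟩
  ext a
  constructor
  · rintro ⟨ha, haL⟩
    by_contra hna
    exact (h2 ha).2 ⟨haL, hna⟩
  · intro ha
    exact ⟨h1 ha, hA.1 ha⟩

theorem init1 [SecondCountableTopology Y] [Countable Y] {L : ℕ → Set Y}
    (hL : ∀ k, IsCompact (L k)) {k : ℕ} {z : Y} (hz : z ∈ L k) {O : Set Y} (hO : IsOpen O)
    (hzO : z ∈ O) : ∃ A, RC (L k) A ∧ A ⊆ O ∧ z ∈ A := by
  obtain ⟨D, h1, h2, h3, h4, h5⟩ := lemmaZ (K := L k) (A := {z}) (G := O)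
    (hL _) isCompact_singleton (singleton_subset_iff.2 hz) hO (singleton_subset_iff.2 hzO)
  exact ⟨D, ⟨h3, h4, h5⟩, h2, h1 rfl⟩

end core

theorem contMul_of {Y : Type u} [Semigroup Y] (τ : TopologicalSpace Y)
    (h : ∀ W : Set Y, IsOpen[τ] W → ∀ u v : Y, u * v ∈ W → ∃ U V : Set Y, IsOpen[τ] U ∧
      IsOpen[τ] V ∧ u ∈ U ∧ v ∈ V ∧ ∀ a ∈ U, ∀ b ∈ V, a * b ∈ W) : @ContinuousMul Y τ _ := by
  let _ := τ
  refine ⟨?_⟩
  rw [continuous_def]
  intro W hW
  rw [isOpen_prod_iff]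
  intro u v huv
  obtain ⟨U, V, hU, hV, hu, hv, h1⟩ := h W hW u v huv
  exact ⟨U, V, hU, hV, hu, hv, fun p hp => h1 p.1 hp.1 p.2 hp.2⟩

theorem t2_of_finer {Y : Type u} (τ τ' : TopologicalSpace Y)
    (h : ∀ U : Set Y, IsOpen[τ] U → IsOpen[τ'] U) (hT : @T2Space Y τ) : @T2Space Y τ' := by
  refine @T2Space.mk Y τ' fun x y hxy => ?_
  obtain ⟨u, v, hu, hv, h1⟩ := @t2_separation Y τ hT x y hxy
  exact ⟨u, v, h u hu, h v hv, h1⟩

theorem basis_of {Y : Type u} (τ : TopologicalSpace Y)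
    (h : ∀ W : Set Y, IsOpen[τ] W → ∀ z ∈ W, ∃ U : Set Y, @IsClopen Y τ U ∧ z ∈ U ∧ U ⊆ W) :
    @TopologicalSpace.IsTopologicalBasis Y τ {U | @IsClopen Y τ U} := by
  let _ := τ
  refine TopologicalSpace.isTopologicalBasis_of_isOpen_of_nhds (fun U hU => hU.isOpen) ?_
  intro z W hz hW
  obtain ⟨U, h1, h2, h3⟩ := h W hW z hz
  exact ⟨U, h1, h2, h3⟩

open Pointwise in
/-- the main construction -/
theorem core {Y : Type u} [TopologicalSpace Y] [T2Space Y] [SecondCountableTopology Y]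
    [Semigroup Y] [ContinuousMul Y] [Countable Y] (R : Set Y)
    (hR : ∀ x ∈ R, ∃ U, IsOpen U ∧ U ∩ R = {x}) (y : Y) (hcl : y ∈ closure R) :
    ∃ τ : TopologicalSpace Y, @TopologicalSpace.IsTopologicalBasis Y τ {U | @IsClopen Y τ U} ∧
      @T2Space Y τ ∧ @ContinuousMul Y τ _ ∧ (∀ x ∈ R, ∃ U, IsOpen[τ] U ∧ U ∩ R = {x}) ∧
      y ∈ @closure Y τ R := by
  obtain ⟨x, hxR, hx⟩ := mem_closure_iff_seq_limit.1 hcl
  have : Nonempty Y := ⟨y⟩
  obtain ⟨e, he⟩ := exists_surjective_nat Y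
  let L : ℕ → Set Y := fun k => Nat.rec (insert y (range x)) (fun k K => K ∪ K * K ∪ {e k}) k
  have hL0 : L 0 = insert y (range x) := rfl
  have hLs : ∀ k, L (k + 1) = L k ∪ L k * L k ∪ {e k} := fun k => rfl
  have hmono : Monotone L := monotone_nat_of_le_succ fun k => by
    rw [hLs]
    exact fun a ha => Or.inl (Or.inl ha)
  have hL : ∀ k, IsCompact (L k) := by
    intro k
    induction k with
    | zero => exact hx.isCompact_insert_range
    | succ k ih =>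
      rw [hLs]
      exact (ih.union (ih.mul ih)).union isCompact_singleton
  have hcov : ∀ z, ∃ k, z ∈ L k := by
    intro z
    obtain ⟨k, rfl⟩ := he z
    exact ⟨k + 1, by rw [hLs]; exact Or.inr rfl⟩
  have hmul : ∀ k, ∀ u ∈ L k, ∀ v ∈ L k, u * v ∈ L (k + 1) := by
    intro k u hu v hv
    rw [hLs]
    exact Or.inl (Or.inr (Set.mul_mem_mul hu hv))
  refine ⟨kTop L, ?_, ?_, ?_, ?_, ?_⟩
  · refine basis_of _ fun W hW z hz => ?_
    obtain ⟨k0, hk0⟩ := hcov z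
    obtain ⟨G, hG, hGW⟩ := hW k0
    have hzG : z ∈ G := by
      have : z ∈ W ∩ L k0 := ⟨hz, hk0⟩
      rw [← hGW] at this
      exact this.1
    obtain ⟨A, hA, hAG, hzA⟩ := init1 hL hk0 hG hzG
    have hAW : A ⊆ W := by
      intro a ha
      have : a ∈ G ∩ L k0 := ⟨hAG ha, hA.1 ha⟩
      rw [hGW] at this
      exact this.1
    have hempty : ∀ k, RC (L k) ∅ := fun k =>
      ⟨empty_subset _, isCompact_empty, by rw [sdiff_empty]; exact hL k⟩
    obtain ⟨U, V, hU, -, hU0, -, hUV⟩ := build hmono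
      (fun k A B => RC (L k) A ∧ A ⊆ W ∧ B = ∅) k0 A ∅ ⟨hA, hAW, rfl⟩
      (by rintro k A B ⟨h1, h2, rfl⟩; exact ⟨h1, hempty k⟩)
      (by
        rintro k A B ⟨h1, h2, rfl⟩
        obtain ⟨G, hG, hGW⟩ := hW (k + 1)
        have hAG : A ⊆ G := by
          intro a ha
          have : a ∈ W ∩ L (k + 1) := ⟨h2 ha, hmono (Nat.le_succ k) (h1.1 ha)⟩
          rw [← hGW] at this
          exact this.1
        obtain ⟨A', h3, h4, h5⟩ := ext1 hmono hL h1 hG hAG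
        refine ⟨A', ∅, ⟨h3, ?_, rfl⟩, h5, empty_inter _⟩
        intro a ha
        have : a ∈ G ∩ L (k + 1) := ⟨h4 ha, h3.1 ha⟩
        rw [hGW] at this
        exact this.1)
    refine ⟨U, hU, ?_, ?_⟩
    · have : z ∈ U ∩ L k0 := by rw [hU0]; exact hzA
      exact this.1
    · intro u hu
      obtain ⟨k, hk⟩ := hcov u
      exact (hUV (max k k0) (le_max_right _ _)).2.1 ⟨hu, hmono (le_max_left _ _) hk⟩
  · exact t2_of_finer _ _ (fun U hU => kTop_of_open hU) inferInstance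
  · refine contMul_of _ fun W hW u v huv => ?_
    obtain ⟨ku, hku⟩ := hcov u
    obtain ⟨kv, hkv⟩ := hcov v
    let k0 := max ku kv
    have hu : u ∈ L k0 := hmono (le_max_left _ _) hku
    have hv : v ∈ L k0 := hmono (le_max_right _ _) hkv
    obtain ⟨G, hG, hGW⟩ := hW (k0 + 1)
    have huvG : u * v ∈ G := by
      have : u * v ∈ W ∩ L (k0 + 1) := ⟨huv, hmul k0 u hu v hv⟩
      rw [← hGW] at this
      exact this.1
    have hcont : Continuous fun p : Y × Y => p.1 * p.2 := continuous_mul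
    obtain ⟨O, O', hO, hO', huO, hvO', hOO⟩ := isOpen_prod_iff.1 (hG.preimage hcont) u v huvG
    obtain ⟨A, hA, hAO, huA⟩ := init1 hL hu hO huO
    obtain ⟨B, hB, hBO, hvB⟩ := init1 hL hv hO' hvO'
    obtain ⟨U, V, hU, hV, hU0, hV0, hUV⟩ := build hmono
      (fun k A B => RC (L k) A ∧ RC (L k) B ∧ ∀ a ∈ A, ∀ b ∈ B, a * b ∈ W) k0 A B
      ⟨hA, hB, fun a ha b hb => by
        have h1 : a * b ∈ G := hOO (show (a, b) ∈ O ×ˢ O' from ⟨hAO ha, hBO hb⟩)
        have : a * b ∈ G ∩ L (k0 + 1) := ⟨h1, hmul k0 a (hA.1 ha) b (hB.1 hb)⟩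
        rw [hGW] at this
        exact this.1⟩
      (by rintro k A B ⟨h1, h2, h3⟩; exact ⟨h1, h2⟩)
      (by
        rintro k A B ⟨h1, h2, h3⟩
        obtain ⟨G, hG, hGW⟩ := hW (k + 1 + 1)
        have hsub : A ×ˢ B ⊆ (fun p : Y × Y => p.1 * p.2) ⁻¹' G := by
          rintro ⟨a, b⟩ ⟨ha, hb⟩
          have : a * b ∈ W ∩ L (k + 1 + 1) := ⟨h3 a ha b hb,
            hmono (show k + 1 ≤ k + 1 + 1 by omega) (hmul k a (h1.1 ha) b (h2.1 hb))⟩
          rw [← hGW] at this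
          exact this.1
        obtain ⟨O, O', hO, hO', hAO, hBO, hOO⟩ :=
          generalized_tube_lemma h1.2.1 h2.2.1 (hG.preimage hcont) hsub
        obtain ⟨A', h4, h5, h6⟩ := ext1 hmono hL h1 hO hAO
        obtain ⟨B', h7, h8, h9⟩ := ext1 hmono hL h2 hO' hBO
        refine ⟨A', B', ⟨h4, h7, ?_⟩, h6, h9⟩
        intro a ha b hb
        have e1 : a * b ∈ G := hOO (show (a, b) ∈ O ×ˢ O' from ⟨h5 ha, h8 hb⟩)
        have : a * b ∈ G ∩ L (k + 1 + 1) := ⟨e1, hmul (k + 1) a (h4.1 ha) b (h7.1 hb)⟩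
        rw [hGW] at this
        exact this.1)
    refine ⟨U, V, hU.2, hV.2, ?_, ?_, ?_⟩
    · have : u ∈ U ∩ L k0 := by rw [hU0]; exact huA
      exact this.1
    · have : v ∈ V ∩ L k0 := by rw [hV0]; exact hvB
      exact this.1
    · intro a ha b hb
      obtain ⟨ka, hka⟩ := hcov a
      obtain ⟨kb, hkb⟩ := hcov b
      have h1 : k0 ≤ max (max ka kb) k0 := le_max_right _ _
      refine (hUV _ h1).2.2 a ⟨ha, ?_⟩ b ⟨hb, ?_⟩
      · exact hmono ((le_max_left _ _).trans (le_max_left _ _)) hka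
      · exact hmono ((le_max_right _ _).trans (le_max_left _ _)) hkb
  · intro x hx
    obtain ⟨U, hU, h1⟩ := hR x hx
    exact ⟨U, kTop_of_open hU, h1⟩
  · rw [@mem_closure_iff Y (kTop L)]
    intro W hW hyW
    obtain ⟨G, hG, hGW⟩ := hW 0
    have hy0 : y ∈ L 0 := Or.inl rfl
    have hyG : y ∈ G := by
      have : y ∈ W ∩ L 0 := ⟨hyW, hy0⟩
      rw [← hGW] at this
      exact this.1
    obtain ⟨n, hn⟩ := (hx.eventually (hG.mem_nhds hyG)).exists
    have : x n ∈ G ∩ L 0 := ⟨hn, Or.inr ⟨n, rfl⟩⟩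
    rw [hGW] at this
    exact ⟨x n, this.1, hxR n⟩

/-- closing off: a countable subsemigroup and a countable family of open sets -/
theorem closeOff {Y : Type u} [TopologicalSpace Y] [T2Space Y] [Semigroup Y] [ContinuousMul Y]
    (R : Set Y) (hR : ∀ x ∈ R, ∃ U, IsOpen U ∧ U ∩ R = {x}) (y : Y) (hcl : y ∈ closure R)
    (A : Set Y) (hA : A.Countable) :
    ∃ (Z : Subsemigroup Y) (𝓤 : Set (Set Y)), (Z : Set Y).Countable ∧ A ⊆ Z ∧ y ∈ Z ∧
      𝓤.Countable ∧ (∀ U ∈ 𝓤, ∀ V ∈ 𝓤, U ∩ V ∈ 𝓤) ∧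
      (∀ z ∈ Z, ∀ z' ∈ Z, z ≠ z' → ∃ U ∈ 𝓤, ∃ V ∈ 𝓤, z ∈ U ∧ z' ∈ V ∧ Disjoint U V) ∧
      (∀ x ∈ Z, x ∈ R → ∃ U ∈ 𝓤, U ∩ R = {x}) ∧
      (∀ W ∈ 𝓤, ∀ u ∈ Z, ∀ v ∈ Z, u * v ∈ W → ∃ U ∈ 𝓤, ∃ V ∈ 𝓤, u ∈ U ∧ v ∈ V ∧
        ∀ a ∈ U, ∀ b ∈ V, a * b ∈ W) ∧
      (∀ U ∈ 𝓤, y ∈ U → ∃ x ∈ Z, x ∈ R ∧ x ∈ U) ∧ ∃ x ∈ Z, x ∈ R := by
  classical
  have h1 : ∀ z z' : Y, ∃ U V : Set Y, IsOpen U ∧ IsOpen V ∧
      (z ≠ z' → z ∈ U ∧ z' ∈ V ∧ Disjoint U V) := by
    intro z z'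
    by_cases h : z = z'
    · exact ⟨univ, univ, isOpen_univ, isOpen_univ, fun h' => absurd h h'⟩
    · obtain ⟨U, V, hU, hV, h2, h3, h4⟩ := t2_separation h
      exact ⟨U, V, hU, hV, fun _ => ⟨h2, h3, h4⟩⟩
  choose S1 S2 hS1 hS2 hS using h1
  have h2 : ∀ x : Y, ∃ U : Set Y, IsOpen U ∧ (x ∈ R → U ∩ R = {x}) := by
    intro x
    by_cases h : x ∈ R
    · obtain ⟨U, hU, h3⟩ := hR x h
      exact ⟨U, hU, fun _ => h3⟩
    · exact ⟨univ, isOpen_univ, fun h' => absurd h' h⟩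
  choose I hI1 hI2 using h2
  have h3 : ∀ (W : Set Y) (u v : Y), ∃ U V : Set Y, IsOpen U ∧ IsOpen V ∧ (IsOpen W →
      u * v ∈ W → u ∈ U ∧ v ∈ V ∧ ∀ a ∈ U, ∀ b ∈ V, a * b ∈ W) := by
    intro W u v
    by_cases h : IsOpen W ∧ u * v ∈ W
    · have hcont : Continuous fun p : Y × Y => p.1 * p.2 := continuous_mul
      obtain ⟨O, O', hO, hO', h4, h5, h6⟩ :=
        isOpen_prod_iff.1 (h.1.preimage hcont) u v h.2
      exact ⟨O, O', hO, hO', fun _ _ => ⟨h4, h5, fun a ha b hb =>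
        h6 (show (a, b) ∈ O ×ˢ O' from ⟨ha, hb⟩)⟩⟩
    · exact ⟨univ, univ, isOpen_univ, isOpen_univ, fun h4 h5 => absurd ⟨h4, h5⟩ h⟩
  choose M1 M2 hM1 hM2 hM using h3
  have h4 : ∀ U : Set Y, ∃ x ∈ R, IsOpen U → y ∈ U → x ∈ U := by
    intro U
    by_cases h : IsOpen U ∧ y ∈ U
    · obtain ⟨x, hx1, hx2⟩ := mem_closure_iff.1 hcl U h.1 h.2
      exact ⟨x, hx2, fun _ _ => hx1⟩
    · obtain ⟨x, -, hx2⟩ := mem_closure_iff.1 hcl univ isOpen_univ (mem_univ y)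
      exact ⟨x, hx2, fun h5 h6 => absurd ⟨h5, h6⟩ h⟩
  choose wit hwit1 hwit2 using h4
  -- the recursion
  let St : ℕ → Set Y × Set (Set Y) := fun n => Nat.rec (A ∪ {y}, {univ})
    (fun _ p => (p.1 ∪ image2 (fun a b => a * b) p.1 p.1 ∪ wit '' p.2,
      p.2 ∪ image2 (fun U V => U ∩ V) p.2 p.2 ∪ image2 S1 p.1 p.1 ∪ image2 S2 p.1 p.1 ∪
        I '' p.1 ∪ ⋃ W ∈ p.2, (image2 (M1 W) p.1 p.1 ∪ image2 (M2 W) p.1 p.1))) n
  have hS0 : St 0 = (A ∪ {y}, {univ}) := rfl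
  have hSs : ∀ n, St (n + 1) = ((St n).1 ∪ image2 (fun a b => a * b) (St n).1 (St n).1 ∪
      wit '' (St n).2, (St n).2 ∪ image2 (fun U V => U ∩ V) (St n).2 (St n).2 ∪
        image2 S1 (St n).1 (St n).1 ∪ image2 S2 (St n).1 (St n).1 ∪ I '' (St n).1 ∪
        ⋃ W ∈ (St n).2, (image2 (M1 W) (St n).1 (St n).1 ∪ image2 (M2 W) (St n).1 (St n).1)) :=
    fun n => rfl
  have hcount : ∀ n, (St n).1.Countable ∧ (St n).2.Countable := by
    intro n
    induction n with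
    | zero =>
      rw [hS0]
      exact ⟨hA.union (countable_singleton _), countable_singleton _⟩
    | succ n ih =>
      rw [hSs]
      obtain ⟨i1, i2⟩ := ih
      refine ⟨(i1.union (i1.image2 i1 _)).union (i2.image _), ?_⟩
      refine ((((i2.union (i2.image2 i2 _)).union (i1.image2 i1 _)).union
        (i1.image2 i1 _)).union (i1.image _)).union ?_
      exact i2.biUnion fun W _ => (i1.image2 i1 _).union (i1.image2 i1 _)
  have hopen : ∀ n, ∀ U ∈ (St n).2, IsOpen U := by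
    intro n
    induction n with
    | zero =>
      rw [hS0]
      rintro U rfl
      exact isOpen_univ
    | succ n ih =>
      rw [hSs]
      rintro U (((((hU | ⟨V, hV, W, hW, rfl⟩) | ⟨a, ha, b, hb, rfl⟩) | ⟨a, ha, b, hb, rfl⟩) |
        ⟨a, ha, rfl⟩) | hU)
      · exact ih U hU
      · exact (ih V hV).inter (ih W hW)
      · exact hS1 _ _
      · exact hS2 _ _
      · exact hI1 _
      · rw [mem_iUnion₂] at hU
        obtain ⟨W, hW, ⟨a, ha, b, hb, rfl⟩ | ⟨a, ha, b, hb, rfl⟩⟩ := hU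
        · exact hM1 _ _ _
        · exact hM2 _ _ _
  have hmono1 : Monotone fun n => (St n).1 := monotone_nat_of_le_succ fun n => by
    rw [hSs]
    exact fun a ha => Or.inl (Or.inl ha)
  have hmono2 : Monotone fun n => (St n).2 := monotone_nat_of_le_succ fun n => by
    rw [hSs]
    exact fun a ha => Or.inl (Or.inl (Or.inl (Or.inl (Or.inl ha))))
  let Z : Subsemigroup Y :=
    { carrier := ⋃ n, (St n).1
      mul_mem' := by
        intro a b ha hb
        obtain ⟨n, hn⟩ := mem_iUnion.1 ha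
        obtain ⟨m, hm⟩ := mem_iUnion.1 hb
        refine mem_iUnion.2 ⟨max n m + 1, ?_⟩
        rw [hSs]
        exact Or.inl (Or.inr ⟨a, hmono1 (le_max_left n m) hn, b, hmono1 (le_max_right n m) hm,
          rfl⟩) }
  have hZ : ∀ z, z ∈ Z ↔ ∃ n, z ∈ (St n).1 := fun z => mem_iUnion
  refine ⟨Z, ⋃ n, (St n).2, countable_iUnion fun n => (hcount n).1, ?_, ?_,
    countable_iUnion fun n => (hcount n).2, ?_, ?_, ?_, ?_, ?_, ?_⟩
  · intro a ha
    exact (hZ a).2 ⟨0, Or.inl ha⟩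
  · exact (hZ y).2 ⟨0, Or.inr rfl⟩
  · intro U hU V hV
    obtain ⟨n, hn⟩ := mem_iUnion.1 hU
    obtain ⟨m, hm⟩ := mem_iUnion.1 hV
    refine mem_iUnion.2 ⟨max n m + 1, ?_⟩
    rw [hSs]
    exact Or.inl (Or.inl (Or.inl (Or.inl (Or.inr ⟨U, hmono2 (le_max_left n m) hn, V,
      hmono2 (le_max_right n m) hm, rfl⟩))))
  · intro z hz z' hz' hne
    obtain ⟨n, hn⟩ := (hZ z).1 hz
    obtain ⟨m, hm⟩ := (hZ z').1 hz'
    obtain ⟨h5, h6, h7⟩ := hS z z' hne
    have e1 := hmono1 (le_max_left n m) hn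
    have e2 := hmono1 (le_max_right n m) hm
    refine ⟨S1 z z', mem_iUnion.2 ⟨max n m + 1, ?_⟩, S2 z z', mem_iUnion.2 ⟨max n m + 1, ?_⟩,
      h5, h6, h7⟩
    · rw [hSs]
      exact Or.inl (Or.inl (Or.inl (Or.inr ⟨z, e1, z', e2, rfl⟩)))
    · rw [hSs]
      exact Or.inl (Or.inl (Or.inr ⟨z, e1, z', e2, rfl⟩))
  · intro x hx hxR
    obtain ⟨n, hn⟩ := (hZ x).1 hx
    refine ⟨I x, mem_iUnion.2 ⟨n + 1, ?_⟩, hI2 x hxR⟩
    rw [hSs]
    exact Or.inl (Or.inr ⟨x, hn, rfl⟩)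
  · intro W hW u hu v hv huv
    obtain ⟨k, hk⟩ := mem_iUnion.1 hW
    obtain ⟨n, hn⟩ := (hZ u).1 hu
    obtain ⟨m, hm⟩ := (hZ v).1 hv
    obtain ⟨h5, h6, h7⟩ := hM W u v (hopen k W hk) huv
    have e0 := hmono2 (le_max_left k (max n m)) hk
    have e1 := hmono1 ((le_max_left n m).trans (le_max_right k (max n m))) hn
    have e2 := hmono1 ((le_max_right n m).trans (le_max_right k (max n m))) hm
    refine ⟨M1 W u v, mem_iUnion.2 ⟨max k (max n m) + 1, ?_⟩, M2 W u v,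
      mem_iUnion.2 ⟨max k (max n m) + 1, ?_⟩, h5, h6, h7⟩
    · rw [hSs]
      exact Or.inr (mem_iUnion₂.2 ⟨W, e0, Or.inl ⟨u, e1, v, e2, rfl⟩⟩)
    · rw [hSs]
      exact Or.inr (mem_iUnion₂.2 ⟨W, e0, Or.inr ⟨u, e1, v, e2, rfl⟩⟩)
  · intro U hU hyU
    obtain ⟨n, hn⟩ := mem_iUnion.1 hU
    refine ⟨wit U, (hZ _).2 ⟨n + 1, ?_⟩, hwit1 U, hwit2 U (hopen n U hn) hyU⟩
    rw [hSs]
    exact Or.inr ⟨U, hn, rfl⟩
  · refine ⟨wit univ, (hZ _).2 ⟨0 + 1, ?_⟩, hwit1 univ⟩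
    rw [hSs]
    exact Or.inr ⟨univ, rfl, rfl⟩

/-- The zero-dimensional topology on a countable copy of `Z`. -/
theorem onCountable {Y : Type u} [Semigroup Y] (R : Set Y) (y : Y) (Z : Subsemigroup Y)
    (𝓤 : Set (Set Y)) (hcount : 𝓤.Countable) (hinter : ∀ U ∈ 𝓤, ∀ V ∈ 𝓤, U ∩ V ∈ 𝓤)
    (hsep : ∀ z ∈ Z, ∀ z' ∈ Z, z ≠ z' → ∃ U ∈ 𝓤, ∃ V ∈ 𝓤, z ∈ U ∧ z' ∈ V ∧ Disjoint U V)
    (hiso : ∀ x ∈ Z, x ∈ R → ∃ U ∈ 𝓤, U ∩ R = {x})
    (hmul : ∀ W ∈ 𝓤, ∀ u ∈ Z, ∀ v ∈ Z, u * v ∈ W → ∃ U ∈ 𝓤, ∃ V ∈ 𝓤, u ∈ U ∧ v ∈ V ∧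
        ∀ a ∈ U, ∀ b ∈ V, a * b ∈ W)
    (hwit : ∀ U ∈ 𝓤, y ∈ U → ∃ x ∈ Z, x ∈ R ∧ x ∈ U) (hne : ∃ x ∈ Z, x ∈ R)
    {S : Type v} [Semigroup S] [Countable S] (f : S →ₙ* Y) (hf : Function.Injective f)
    (hfZ : ∀ z, z ∈ Z ↔ ∃ s, f s = z) (y' : S) (hy' : f y' = y) :
    ∃ τ : TopologicalSpace S, @TopologicalSpace.IsTopologicalBasis S τ {U | @IsClopen S τ U} ∧
      @T2Space S τ ∧ @ContinuousMul S τ _ ∧
      (∀ s ∈ f ⁻¹' R, ∃ U, IsOpen[τ] U ∧ U ∩ f ⁻¹' R = {s}) ∧ y' ∈ @closure S τ (f ⁻¹' R) := by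
  let 𝓥 : Set (Set S) := (fun U => f ⁻¹' U) '' 𝓤
  let τ : TopologicalSpace S := TopologicalSpace.generateFrom 𝓥
  have hgen : ∀ U ∈ 𝓤, IsOpen[τ] (f ⁻¹' U) := fun U hU =>
    TopologicalSpace.isOpen_generateFrom_of_mem ⟨U, hU, rfl⟩
  have hsc : @SecondCountableTopology S τ := @SecondCountableTopology.mk S τ
    ⟨𝓥, hcount.image _, rfl⟩
  have hT2 : @T2Space S τ := by
    refine @T2Space.mk S τ fun a b hab => ?_
    obtain ⟨U, hU, V, hV, h1, h2, h3⟩ := hsep (f a) ((hfZ _).2 ⟨a, rfl⟩) (f b)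
      ((hfZ _).2 ⟨b, rfl⟩) (hf.ne hab)
    exact ⟨f ⁻¹' U, f ⁻¹' V, hgen U hU, hgen V hV, h1, h2, h3.preimage f⟩
  have hcm : @ContinuousMul S τ _ := by
    refine ⟨?_⟩
    rw [continuous_generateFrom_iff]
    rintro _ ⟨W, hW, rfl⟩
    rw [isOpen_prod_iff]
    intro u v huv
    have huv' : f u * f v ∈ W := by
      have h0 : f (u * v) ∈ W := huv
      rwa [map_mul] at h0
    obtain ⟨U, hU, V, hV, h1, h2, h3⟩ := hmul W hW (f u) ((hfZ _).2 ⟨u, rfl⟩) (f v)
      ((hfZ _).2 ⟨v, rfl⟩) huv'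
    refine ⟨f ⁻¹' U, f ⁻¹' V, hgen U hU, hgen V hV, h1, h2, fun p hp => ?_⟩
    show f (p.1 * p.2) ∈ W
    rw [map_mul]
    exact h3 _ hp.1 _ hp.2
  have hiso' : ∀ s ∈ f ⁻¹' R, ∃ U, IsOpen[τ] U ∧ U ∩ f ⁻¹' R = {s} := by
    intro s hs
    obtain ⟨U, hU, h1⟩ := hiso (f s) ((hfZ _).2 ⟨s, rfl⟩) hs
    refine ⟨f ⁻¹' U, hgen U hU, ?_⟩
    rw [← preimage_inter, h1]
    ext a
    simp [hf.eq_iff]
  have hcl : y' ∈ @closure S τ (f ⁻¹' R) := by
    have hb : @TopologicalSpace.IsTopologicalBasis S τ (insert univ 𝓥) := by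
      apply TopologicalSpace.isTopologicalBasis_of_subbasis_of_inter rfl
      rintro _ ⟨U, hU, rfl⟩ _ ⟨V, hV, rfl⟩
      exact ⟨U ∩ V, hinter U hU V hV, rfl⟩
    rw [hb.mem_closure_iff]
    rintro o (rfl | ⟨U, hU, rfl⟩) hyo
    · obtain ⟨x, hxZ, hxR⟩ := hne
      obtain ⟨s, rfl⟩ := (hfZ x).1 hxZ
      exact ⟨s, mem_univ _, hxR⟩
    · have hyU : y ∈ U := by
        rw [← hy']
        exact hyo
      obtain ⟨x, hxZ, hxR, hxU⟩ := hwit U hU hyU
      obtain ⟨s, rfl⟩ := (hfZ x).1 hxZ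
      exact ⟨s, hxU, hxR⟩
  exact @core S τ hT2 hsc _ hcm _ (f ⁻¹' R) hiso' y' hcl

/-- The clopen sets form a base of the topology. -/
def ZeroDim (Y : Type v) [TopologicalSpace Y] : Prop :=
  TopologicalSpace.IsTopologicalBasis {U : Set Y | IsClopen U}

/-- `X` is closed in each zero-dimensional Hausdorff topological semigroup which contains it as a
discrete subsemigroup. -/
def TzClosed (X : Type u) [Semigroup X] : Prop :=
  ∀ (Y : Type v) [Semigroup Y] [TopologicalSpace Y] [ContinuousMul Y] [T2Space Y],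
    ZeroDim Y → ∀ h : X →ₙ* Y, @IsEmbedding X Y ⊥ _ h → IsClosed (range h)

/-- `X` is closed in each Hausdorff topological semigroup which contains it as a discrete
subsemigroup. -/
def T2Closed (X : Type u) [Semigroup X] : Prop :=
  ∀ (Y : Type v) [Semigroup Y] [TopologicalSpace Y] [ContinuousMul Y] [T2Space Y]
    (h : X →ₙ* Y), @IsEmbedding X Y ⊥ _ h → IsClosed (range h)

theorem main {X : Type u} [Semigroup X] {Y : Type v} [Semigroup Y] [TopologicalSpace Y]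
    [ContinuousMul Y] [T2Space Y] (h : X →ₙ* Y) (hh : @IsEmbedding X Y ⊥ _ h)
    (hnc : ¬ IsClosed (range h)) (A : Set X) (hA : A.Countable) :
    ∃ X₀ : Subsemigroup X, (X₀ : Set X).Countable ∧ A ⊆ X₀ ∧ ¬ TzClosed.{u, w} X₀ := by
  have hinj : Function.Injective h := @IsEmbedding.injective X Y ⊥ _ h hh
  obtain ⟨y, hy1, hy2⟩ : ∃ y, y ∈ closure (range h) ∧ y ∉ range h := by
    by_contra hcon
    push Not at hcon
    exact hnc (isClosed_of_closure_subset hcon)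
  have hR : ∀ x ∈ range h, ∃ U, IsOpen U ∧ U ∩ range h = {x} := by
    rintro _ ⟨x, rfl⟩
    have h1 : @IsOpen X ⊥ {x} := @isOpen_discrete X ⊥ (@DiscreteTopology.mk X ⊥ rfl) _
    obtain ⟨U, hU, h2⟩ : ∃ U : Set Y, IsOpen U ∧ h ⁻¹' U = {x} := by
      let _ : TopologicalSpace X := ⊥
      exact hh.isInducing.isOpen_iff.1 h1
    refine ⟨U, hU, ?_⟩
    ext z
    constructor
    · rintro ⟨hz, t, rfl⟩
      have : t ∈ h ⁻¹' U := hz
      rw [h2] at this
      rw [mem_singleton_iff.1 this]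
      rfl
    · rintro rfl
      have : x ∈ h ⁻¹' U := by rw [h2]; rfl
      exact ⟨this, x, rfl⟩
  obtain ⟨Z, 𝓤, hZc, hAZ, hyZ, hc, hinter, hsep, hiso, hmul, hwit, hne⟩ :=
    closeOff (range h) hR y hy1 (h '' A) (hA.image _)
  have : Countable Z := hZc.to_subtype
  have hsm : Small.{w} Z := Countable.toSmall.{w, v} Z
  let e : Z ≃ Shrink.{w} Z := @equivShrink Z hsm
  let _ : Semigroup (Shrink.{w} Z) := e.symm.semigroup
  have hemul : ∀ a b : Shrink.{w} Z, e.symm (a * b) = e.symm a * e.symm b := by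
    intro a b
    exact e.symm_apply_apply _
  let f : Shrink.{w} Z →ₙ* Y :=
    { toFun := fun s => (e.symm s : Y)
      map_mul' := by
        intro a b
        rw [hemul]
        rfl }
  have hfdef : ∀ s, f s = (e.symm s : Y) := fun s => rfl
  have hf : Function.Injective f := Subtype.val_injective.comp e.symm.injective
  have : Countable (Shrink.{w} Z) := e.symm.injective.countable
  obtain ⟨τ, h1, h2, h3, h4, h5⟩ := onCountable (range h) y Z 𝓤 hc hinter hsep hiso hmul hwit hne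
    f hf (by
      intro z
      constructor
      · intro hz
        exact ⟨e ⟨z, hz⟩, by rw [hfdef, e.symm_apply_apply]⟩
      · rintro ⟨s, rfl⟩
        exact (e.symm s).2) (e ⟨y, hyZ⟩) (by rw [hfdef, e.symm_apply_apply])
  refine ⟨Z.comap h, hZc.preimage hinj, fun a ha => hAZ ⟨a, ha, rfl⟩, fun hTz => ?_⟩
  let h₀ : (Z.comap h) →ₙ* Shrink.{w} Z :=
    { toFun := fun x => e ⟨h x, x.2⟩
      map_mul' := by
        intro a b
        apply e.symm.injective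
        rw [hemul, e.symm_apply_apply, e.symm_apply_apply, e.symm_apply_apply]
        apply Subtype.ext
        show h ((a : X) * (b : X)) = h a * h b
        exact map_mul h _ _ }
  have hfh : ∀ x, f (h₀ x) = h x := by
    intro x
    show ((e.symm (e ⟨h x, x.2⟩) : Z) : Y) = h x
    rw [e.symm_apply_apply]
  have hh₀inj : Function.Injective h₀ := by
    intro a b hab
    apply Subtype.ext
    apply hinj
    rw [← hfh, ← hfh, hab]
  have hrange : range h₀ = f ⁻¹' (range h) := by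
    ext s
    constructor
    · rintro ⟨x, rfl⟩
      exact ⟨x, (hfh x).symm⟩
    · rintro ⟨x, hx⟩
      have hxZ : h x ∈ Z := by
        rw [hx]
        exact (e.symm s).2
      refine ⟨⟨x, hxZ⟩, hf ?_⟩
      rw [hfh]
      exact hx
  have hemb : @IsEmbedding (Z.comap h) (Shrink.{w} Z) ⊥ τ h₀ := by
    refine @IsEmbedding.mk _ _ ⊥ τ _ (@IsInducing.mk _ _ ⊥ τ _ ?_) hh₀inj
    symm
    apply @eq_bot_of_singletons_open _ (TopologicalSpace.induced h₀ τ)
    intro x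
    obtain ⟨U, hU, h6⟩ := h4 (h₀ x) (by rw [← hrange]; exact ⟨x, rfl⟩)
    refine isOpen_induced_iff.2 ⟨U, hU, ?_⟩
    ext t
    constructor
    · intro ht
      have : h₀ t ∈ U ∩ f ⁻¹' (range h) := ⟨ht, by rw [← hrange]; exact ⟨t, rfl⟩⟩
      rw [h6] at this
      exact hh₀inj this
    · rintro rfl
      have : h₀ t ∈ U ∩ f ⁻¹' (range h) := by rw [h6]; rfl
      exact this.1
  have hclosed := @hTz (Shrink.{w} Z) _ τ h3 h2 h1 h₀ hemb
  rw [hrange] at hclosed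
  have h6 : e ⟨y, hyZ⟩ ∈ f ⁻¹' (range h) := by
    rw [← @IsClosed.closure_eq _ τ _ hclosed]
    exact h5
  apply hy2
  have h7 : f (e ⟨y, hyZ⟩) ∈ range h := h6
  rwa [hfdef, e.symm_apply_apply] at h7

/-- A subsemigroup which is everything. -/
theorem tzClosed_of_forall_mem {X : Type u} [Semigroup X] (hX : TzClosed.{u, w} X)
    (X₀ : Subsemigroup X) (hX₀ : ∀ x, x ∈ X₀) : TzClosed.{u, w} X₀ := by
  intro Y _ _ _ _ hY h hh
  let i : X →ₙ* X₀ :=
    { toFun := fun x => ⟨x, hX₀ x⟩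
      map_mul' := fun _ _ => rfl }
  have hrange : range (h.comp i) = range h := by
    ext z
    constructor
    · rintro ⟨x, rfl⟩
      exact ⟨i x, rfl⟩
    · rintro ⟨x, rfl⟩
      exact ⟨x, rfl⟩
  rw [← hrange]
  refine hX Y hY (h.comp i) ?_
  let _ : TopologicalSpace X := ⊥
  let _ : TopologicalSpace X₀ := ⊥
  have : DiscreteTopology X := ⟨rfl⟩
  have : DiscreteTopology X₀ := ⟨rfl⟩
  have hi : IsEmbedding i := by
    refine ⟨⟨?_⟩, fun a b hab => congrArg Subtype.val hab⟩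
    symm
    apply eq_bot_of_singletons_open
    intro x
    exact isOpen_induced_iff.2 ⟨{i x}, isOpen_discrete _, by
      ext t
      constructor
      · intro ht
        exact congrArg Subtype.val (show i t = i x from ht)
      · rintro rfl
        rfl⟩
  exact (show IsEmbedding (h ∘ i) from IsEmbedding.comp hh hi)

/-- Let `X` be a semigroup which is not closed in the Hausdorff topological semigroups. Then each
countable subset of `X` lies in a countable subsemigroup of `X` which is not closed in the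
zero-dimensional Hausdorff topological semigroups. In particular, if `X` is closed in the
zero-dimensional Hausdorff topological semigroups, then `X` is uncountable. -/
theorem result (X : Type u) [Semigroup X] (hX : ¬ T2Closed.{u, v} X) :
    (TzClosed.{u, w} X → Uncountable X) ∧
    ∀ A : Set X, A.Countable →
      ∃ X₀ : Subsemigroup X, (X₀ : Set X).Countable ∧ A ⊆ X₀ ∧ ¬ TzClosed.{u, w} X₀ := by
  have key : ∀ A : Set X, A.Countable →
      ∃ X₀ : Subsemigroup X, (X₀ : Set X).Countable ∧ A ⊆ X₀ ∧ ¬ TzClosed.{u, w} X₀ := by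
    intro A hA
    unfold T2Closed at hX
    push Not at hX
    obtain ⟨Y, _, _, _, _, h, hh, hnc⟩ := hX
    exact main h hh hnc A hA
  refine ⟨fun hTz => ?_, key⟩
  by_contra hn
  have hc : Countable X := not_uncountable_iff.1 hn
  obtain ⟨X₀, -, h1, h2⟩ := key univ (to_countable _)
  exact h2 (tzClosed_of_forall_mem hTz X₀ fun x => h1 (mem_univ x))

end Pool.Agent.Results.MP_0181e9_al.CountableSubsemigroups
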